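import Pool.Agent.H8.ExclCore

namespace Pool.Agent.Results.MP_f12eed_co.PathEight

open SimpleGraph Finset

/-- `H` has no `f`-exclusive copy of `G`. -/
def Blocking {k n : ℕ} (G : SimpleGraph (Fin k)) (H : SimpleGraph (Fin n))
    (f : Sym2 (Fin n) → Sym2 (Fin n)) : Prop :=
  ¬ ∃ φ : Fin k ↪ Fin n, (∀ a b, G.Adj a b → H.Adj (φ a) (φ b)) ∧
    ∀ a b, G.Adj a b → ∀ w, φ w ∉ f s(φ a, φ b)

/-- The host-graph parameter `s(n, G)`. -/
noncomputable def sPar {k : ℕ} (n : ℕ) (G : SimpleGraph (Fin k)) : ℕ :=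
  sSup {m | ∃ (H : SimpleGraph (Fin n)) (f : Sym2 (Fin n) → Sym2 (Fin n)),
    (∀ e ∈ H.edgeSet, f e ∈ H.edgeSet ∧ ∀ v ∈ e, v ∉ f e) ∧ Blocking G H f ∧
      H.edgeSet.ncard = m}

/-- The global parameter `p(n, G)`. -/
noncomputable def pPar {k : ℕ} (n : ℕ) (G : SimpleGraph (Fin k)) : ℕ :=
  sSup {m | m ≤ n.choose 2 ∧ ∃ f : Sym2 (Fin n) → Sym2 (Fin n),
    (∀ e ∈ (⊤ : SimpleGraph (Fin n)).edgeSet, f e ∈ (⊤ : SimpleGraph (Fin n)).edgeSet) ∧
    m ≤ {e | e ∈ (⊤ : SimpleGraph (Fin n)).edgeSet ∧ ∀ v ∈ e, v ∉ f e}.ncard ∧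
    Blocking G ⊤ f}

def tbl : List (Sym2 (Fin 8) × Sym2 (Fin 8)) :=
  [(s(0, 2), s(3, 4)), (s(0, 3), s(4, 6)), (s(0, 4), s(1, 6)), (s(0, 6), s(1, 2)),
   (s(1, 4), s(3, 5)), (s(1, 5), s(6, 7)), (s(1, 6), s(4, 5)), (s(1, 7), s(4, 6)),
   (s(2, 3), s(0, 4)), (s(2, 4), s(0, 1)), (s(3, 4), s(0, 2)), (s(5, 6), s(0, 7)),
   (s(5, 7), s(1, 6)), (s(6, 7), s(0, 1))]

def f0 (e : Sym2 (Fin 8)) : Sym2 (Fin 8) := (tbl.lookup e).getD e

set_option synthInstance.maxSize 4000 in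
lemma f0_key : ∀ a b c : Fin 8, a ≠ b → a ≠ c → b ≠ c → a ∉ f0 s(a, b) → b ∉ f0 s(a, b) →
    c ∉ f0 s(a, b) → a ∉ f0 s(b, c) → b ∉ f0 s(b, c) → c ∈ f0 s(b, c) := by
  decide +kernel

lemma p_ge : 14 ≤ pPar 8 (pathGraph 3) := by
  apply le_csSup ⟨Nat.choose 8 2, fun m hm => hm.1⟩
  refine ⟨by decide, f0, ?_, ?_, ?_⟩
  · intro e
    induction e using Sym2.ind with
    | h a b =>
      simp only [edgeSet_top, Set.mem_compl_iff, Sym2.mem_diagSet]
      revert a b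
      decide +kernel
  · have : {e | e ∈ (⊤ : SimpleGraph (Fin 8)).edgeSet ∧ ∀ v ∈ e, v ∉ f0 e} =
        ((univ.filter (fun e : Sym2 (Fin 8) => ¬ e.IsDiag ∧ ∀ v ∈ e, v ∉ f0 e) : Finset _) : Set _) := by
      ext e
      simp
    rw [this, Set.ncard_coe_finset]
    decide +kernel
  · rintro ⟨φ, -, h⟩
    have h01 : (pathGraph 3).Adj 0 1 := by simp [pathGraph_adj]
    have h12 : (pathGraph 3).Adj 1 2 := by simp [pathGraph_adj]
    exact h 1 2 h12 2 (f0_key (φ 0) (φ 1) (φ 2) (by simp) (by simp) (by simp)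
      (h 0 1 h01 0) (h 0 1 h01 1) (h 0 1 h01 2) (h 1 2 h12 0) (h 1 2 h12 1))

lemma s_le : sPar 8 (pathGraph 3) ≤ 13 := by
  apply csSup_le'
  rintro m ⟨H, f, hf, hB, rfl⟩
  by_contra hm
  classical
  obtain ⟨v0, -, hv0⟩ := exists_max_image univ (fun v => H.degree v) univ_nonempty
  let key : Fin 8 → ℕ := fun v => if v = v0 then 100 else if H.Adj v0 v then 50 + H.degree v
    else H.degree v
  let σ : Equiv.Perm (Fin 8) := Fin.revPerm.trans (Tuple.sort key)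
  have hσ : ∀ a b, a ≤ b → key (σ b) ≤ key (σ a) := fun a b hab =>
    Tuple.monotone_sort key (Fin.rev_le_rev.2 hab)
  have hd : ∀ v, H.degree v < 8 := fun v => by simpa using H.degree_lt_card_verts v
  have h0 : σ 0 = v0 := by
    have := hσ 0 (σ.symm v0) (Fin.zero_le _)
    rw [Equiv.apply_symm_apply] at this
    by_contra hne
    have := hd (σ 0)
    simp only [key, if_pos, if_neg hne] at *
    split_ifs at * <;> omega
  let K : SimpleGraph (Fin 8) := H.comap σ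
  let φ : K ≃g H := Iso.comap σ H
  have hdeg : ∀ v, K.degree v = H.degree (σ v) := fun v => (φ.degree_eq v).symm
  refine Pool.Agent.H8.Excl.core K (fun a b x => σ x ∈ f s(σ a, σ b)) ?_ ?_ ?_ ?_ ?_ ?_
  · intro a b x h
    rwa [Sym2.eq_swap]
  · intro a b c hbc hab hac
    by_contra hcon
    rw [not_or] at hcon
    have e1 := (hf s(σ a, σ b) hab).2
    have e2 := (hf s(σ a, σ c) hac).2
    simp only [Sym2.mem_iff, forall_eq_or_imp, forall_eq] at e1 e2
    have hab' : σ a ≠ σ b := fun h => hab.ne (σ.injective h)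
    have hac' : σ a ≠ σ c := fun h => hac.ne (σ.injective h)
    have hbc' : σ b ≠ σ c := fun h => hbc (σ.injective h)
    have hab2 : H.Adj (σ a) (σ b) := hab
    have hac2 : H.Adj (σ a) (σ c) := hac
    apply hB
    refine ⟨⟨![σ b, σ a, σ c], ?_⟩, ?_, ?_⟩
    · intro i j
      fin_cases i <;> fin_cases j <;> simp [hab', hac', hbc', hab'.symm, hac'.symm, hbc'.symm]
    · simp [Fin.forall_fin_succ, pathGraph_adj, hab2, hac2, hab2.symm, hac2.symm]
    · have s1 : s(σ b, σ a) = s(σ a, σ b) := Sym2.eq_swap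
      have s2 : s(σ c, σ a) = s(σ a, σ c) := Sym2.eq_swap
      simp [Fin.forall_fin_succ, pathGraph_adj, s1, s2, e1, e2, hcon]
  · intro a b hab
    obtain ⟨e1, e2⟩ := hf s(σ a, σ b) hab
    simp only [Sym2.mem_iff, forall_eq_or_imp, forall_eq] at e2
    revert e1 e2
    induction f s(σ a, σ b) using Sym2.ind with
    | h p q =>
      intro e1 e2
      obtain ⟨p, rfl⟩ := σ.surjective p
      obtain ⟨q, rfl⟩ := σ.surjective q
      simp only [Sym2.mem_iff, EmbeddingLike.apply_eq_iff_eq, not_or] at e2 ⊢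
      exact ⟨p, q, e1, Ne.symm e2.1.1, Ne.symm e2.2.1, Ne.symm e2.1.2, Ne.symm e2.2.2,
        fun _ => Iff.rfl⟩
  · intro v
    rw [hdeg, hdeg, h0]
    exact hv0 _ (mem_univ _)
  · intro v p1 p2
    have hle : v ≤ v + 1 := by revert v; decide
    have hne : v + 1 ≠ 0 := by revert v; decide
    have n1 : σ v ≠ v0 := fun h => p1.ne' (σ.injective (h.trans h0.symm))
    have n2 : σ (v + 1) ≠ v0 := fun h => hne (σ.injective (h.trans h0.symm))
    have := hσ v (v + 1) hle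
    have d1 := hd (σ v)
    have d2 := hd (σ (v + 1))
    simp only [key, if_neg n1, if_neg n2] at this
    have a1 : K.Adj 0 v ↔ H.Adj v0 (σ v) := by rw [← h0]; rfl
    have a2 : K.Adj 0 (v + 1) ↔ H.Adj v0 (σ (v + 1)) := by rw [← h0]; rfl
    rw [a1, a2, hdeg, hdeg]
    by_cases c1 : H.Adj v0 (σ v) <;> by_cases c2 : H.Adj v0 (σ (v + 1)) <;>
      simp only [c1, c2, if_true, if_false] at this ⊢ <;> simp <;> omega
  · simp only [hdeg]
    rw [Equiv.sum_comp σ (fun v => H.degree v), sum_degrees_eq_twice_card_edges]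
    rw [← coe_edgeFinset, Set.ncard_coe_finset] at hm
    omega

theorem result :
    ∃ (k : ℕ) (G : SimpleGraph (Fin k)) (n : ℕ), G.edgeSet.Nonempty ∧ 4 ≤ n ∧
      sPar n G < pPar n G := by
  refine ⟨3, pathGraph 3, 8, ⟨s(0, 1), by simp [pathGraph_adj]⟩, by norm_num, ?_⟩
  have := p_ge
  have := s_le
  omega

end Pool.Agent.Results.MP_f12eed_co.PathEight
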